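import Mathlib
import Pool.Agent.TH76.BinPart.Lim

/-!
# Limit operators on towers, and idempotent limit operators

An operator `P` on towers is a *limit operator* (`IsOp P`) if `(P v₀, …, P v_{k-1})` is a forward
limit of `(v₀, …, v_{k-1})` for every finite tuple `v`.  The limit operators form a compact
semigroup; the Ellis–Numakura lemma gives idempotents, and hence for every minimal tuple `v` and
every tower `x` a tower `z` with `(v, z)` minimal and `(v, z, z)` a forward limit of `(v, z, x)`.
-/

namespace Pool.Agent.K1H49.BinPart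

open Pool.Agent.TH76.BinPart Finset

set_option linter.unusedSectionVars false
set_option linter.style.haveILetI false

section Op
variable {F : Type*} [Field F]

/-- limit operators -/
def IsOp (P : (ℕ → F) → (ℕ → F)) : Prop :=
  ∀ (k : ℕ) (v : ℕ → ℕ → F), Lim k v (fun i => P (v i))

theorem IsOp.comp {P Q : (ℕ → F) → (ℕ → F)} (hQ : IsOp Q) (hP : IsOp P) :
    IsOp (fun x => Q (P x)) := by
  intro k v
  exact (hP k v).trans (hQ k (fun i => P (v i)))

/-- the tuple `v`, with entry number `k` replaced by `z` -/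
def sn (k : ℕ) (v : ℕ → ℕ → F) (z : ℕ → F) : ℕ → ℕ → F := fun i => if i = k then z else v i

theorem sn_self (k : ℕ) (v : ℕ → ℕ → F) (z : ℕ → F) : sn k v z k = z := by simp [sn]

theorem sn_lt {k i : ℕ} (h : i < k) (v : ℕ → ℕ → F) (z : ℕ → F) : sn k v z i = v i := by
  simp only [sn]; rw [if_neg (by omega)]

theorem exists_op [Finite F] {k : ℕ} {v w : ℕ → ℕ → F} (h : Lim k v w) :
    ∃ P : (ℕ → F) → (ℕ → F), IsOp P ∧ ∀ i, i < k → P (v i) = w i := by
  classical
  choose m hm h1 using h
  let U : Ultrafilter ℕ := Filter.hyperfilter ℕ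
  have hU : ∀ K0 : ℕ, ∀ᶠ K in (U : Filter ℕ), K0 ≤ K := fun K0 =>
    Nat.hyperfilter_le_atTop (Filter.eventually_ge_atTop K0)
  have hlim : ∀ g : ℕ → F, ∃ c : F, ∀ᶠ K in (U : Filter ℕ), g K = c := by
    intro g
    have : ∀ᶠ K in (U : Filter ℕ), ∃ c : F, g K = c :=
      Filter.Eventually.of_forall (fun K => ⟨g K, rfl⟩)
    exact Ultrafilter.eventually_exists_iff.mp this
  choose P hP using fun (r : ℕ → F) (j : ℕ) => hlim (fun K => X r j (2^(K-j) * m K))
  refine ⟨P, ?_, ?_⟩
  · intro k' v' K0
    have h2 : ∀ᶠ K in (U : Filter ℕ), ∀ i ∈ range k', ∀ j ∈ range (K0+1),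
        X (v' i) j (2^(K-j) * m K) = P (v' i) j := by
      rw [Filter.eventually_all_finset]
      intro i _
      rw [Filter.eventually_all_finset]
      intro j _
      exact hP (v' i) j
    obtain ⟨K, h3, h4⟩ := (h2.and (hU K0)).exists
    refine ⟨2^(K-K0) * m K, Nat.mul_pos (by positivity) (hm K), ?_⟩
    intro i hi j hj
    show X (v' i) j (2^(K0-j)*(2^(K-K0)*m K)) = P (v' i) j
    rw [← h3 i (Finset.mem_range.mpr hi) j (Finset.mem_range.mpr (by omega))]
    rw [← mul_assoc, ← pow_add]
    congr 3
    omega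
  · intro i hi
    funext j
    obtain ⟨K, h3, h4⟩ := ((hP (v i) j).and (hU j)).exists
    rw [← h3]
    exact h1 K i hi j h4

end Op

section Closed
variable {F : Type*} [Field F] [TopologicalSpace F] [DiscreteTopology F]

theorem isClosed_lim (k : ℕ) (v : ℕ → ℕ → F) : IsClosed {w : ℕ → ℕ → F | Lim k v w} := by
  have : {w | Lim k v w} = ⋂ K, ⋃ m ∈ {m : ℕ | 1 ≤ m},
      {w : ℕ → ℕ → F | ∀ i, i < k → ∀ j, j ≤ K → X (v i) j (2^(K-j)*m) = w i j} := by
    ext w
    simp only [Set.mem_ofPred_eq, Set.mem_iInter, Set.mem_iUnion, Lim, exists_prop]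
  rw [this]
  apply isClosed_iInter
  intro K
  rw [← isOpen_compl_iff, isOpen_iff_forall_mem_open]
  intro w hw
  refine ⟨⋂ i ∈ range k, ⋂ j ∈ range (K+1), {w' : ℕ → ℕ → F | w' i j = w i j}, ?_, ?_, ?_⟩
  · intro w' hw' hmem
    apply hw
    simp only [Set.mem_iInter, Finset.mem_range, Set.mem_ofPred_eq] at hw'
    simp only [Set.mem_iUnion, Set.mem_ofPred_eq, exists_prop] at hmem ⊢
    obtain ⟨m, hm, h1⟩ := hmem
    exact ⟨m, hm, fun i hi j hj => by rw [h1 i hi j hj]; exact hw' i hi j (by omega)⟩
  · apply isOpen_biInter_finset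
    intro i _
    apply isOpen_biInter_finset
    intro j _
    have hc : Continuous (fun w' : ℕ → ℕ → F => w' i j) := by fun_prop
    exact (isOpen_discrete {w i j}).preimage hc
  · simp

end Closed

section OpT
variable {F : Type*} [Field F]

/-- the type of all maps from towers to towers, with the product topology -/
def OpT (F : Type*) : Type _ := (ℕ → F) → (ℕ → F)

/-- application of an operator -/
def OpT.app (P : OpT F) : (ℕ → F) → (ℕ → F) := P

/-- an operator from a function -/
def OpT.of (P : (ℕ → F) → (ℕ → F)) : OpT F := P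

theorem OpT.app_of (P : (ℕ → F) → (ℕ → F)) : (OpT.of P).app = P := rfl

/-- composition -/
instance : Mul (OpT F) := ⟨fun P Q => OpT.of (fun r => P.app (Q.app r))⟩

instance : Semigroup (OpT F) where
  mul_assoc _ _ _ := rfl

theorem OpT.mul_app (P Q : OpT F) (r : ℕ → F) : (P * Q).app r = P.app (Q.app r) := rfl

theorem OpT.mul_app' (P Q : OpT F) : (P * Q).app = fun r => P.app (Q.app r) := rfl

instance [TopologicalSpace F] : TopologicalSpace (OpT F) :=
  inferInstanceAs (TopologicalSpace ((ℕ → F) → (ℕ → F)))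
instance [TopologicalSpace F] [T2Space F] : T2Space (OpT F) :=
  inferInstanceAs (T2Space ((ℕ → F) → (ℕ → F)))
instance [TopologicalSpace F] [CompactSpace F] : CompactSpace (OpT F) :=
  inferInstanceAs (CompactSpace ((ℕ → F) → (ℕ → F)))

theorem OpT.continuous_app [TopologicalSpace F] (r : ℕ → F) :
    Continuous (fun P : OpT F => P.app r) :=
  continuous_apply (A := fun _ : ℕ → F => ℕ → F) r

theorem OpT.continuous_mul_right [TopologicalSpace F] (r : OpT F) :
    Continuous (fun P : OpT F => P * r) := by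
  show Continuous (fun (P : (ℕ → F) → (ℕ → F)) => (fun a : ℕ → F => P (r.app a)))
  exact continuous_pi (fun a => continuous_apply (A := fun _ : ℕ → F => ℕ → F) (r.app a))

end OpT

section Idem
variable {F : Type*} [Field F] [Finite F]

theorem exists_idem {k : ℕ} {v : ℕ → ℕ → F} (hv : Min k v) (x : ℕ → F) :
    ∃ z : ℕ → F, Min (k+1) (sn k v z) ∧ Lim (k+1) (sn k v x) (sn k v z) ∧
      Lim (k+2) (sn (k+1) (sn k v z) x) (sn (k+1) (sn k v z) z) := by
  classical
  letI : TopologicalSpace F := ⊥
  haveI : DiscreteTopology F := ⟨rfl⟩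
  obtain ⟨w, hw, hwmin⟩ := exists_min (k+1) (sn k v x)
  have hwk : Lim k v w := by
    refine (hw.mono (k' := k) (by omega)).congr ?_ (fun _ _ _ => rfl)
    intro i hi j
    rw [sn_lt hi]
  have hback : Lim k w v := hv w hwk
  obtain ⟨P0, hP0, hP0v⟩ := exists_op hback
  set y1 : ℕ → F := P0 (w k) with hy1
  have hwy : Lim (k+1) w (sn k v y1) := by
    refine (hP0 (k+1) w).congr (fun _ _ _ => rfl) ?_
    intro i hi j
    show P0 (w i) j = _
    rcases Nat.lt_or_ge i k with h | h
    · rw [sn_lt h, hP0v i h]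
    · have : i = k := by omega
      subst this
      rw [sn_self]
  have hmin1 : Min (k+1) (sn k v y1) := hwmin.lim hwy
  have hxy : Lim (k+1) (sn k v x) (sn k v y1) := hw.trans hwy
  -- the compact semigroup
  let S : Set (OpT F) := {P : OpT F | IsOp P.app ∧ (∀ i, i < k → P.app (v i) = v i) ∧
    Lim (k+1) (sn k v y1) (sn k v (P.app x))}
  have hev : ∀ r : ℕ → F, Continuous (fun P : OpT F => P.app r) := OpT.continuous_app
  have hclosed : IsClosed S := by
    have e : S = (⋂ (k' : ℕ), ⋂ (v' : ℕ → ℕ → F),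
        {P : OpT F | Lim k' v' (fun i => P.app (v' i))}) ∩
        ((⋂ (i : ℕ), ⋂ (_ : i < k), {P : OpT F | P.app (v i) = v i}) ∩
        {P : OpT F | Lim (k+1) (sn k v y1) (sn k v (P.app x))}) := by
      ext P
      simp only [S, IsOp, Set.mem_ofPred_eq, Set.mem_inter_iff, Set.mem_iInter]
    rw [e]
    refine IsClosed.inter ?_ (IsClosed.inter ?_ ?_)
    · refine isClosed_iInter (fun k' => isClosed_iInter (fun v' => ?_))
      refine (isClosed_lim k' v').preimage (f := fun (P : OpT F) (i : ℕ) => P.app (v' i)) ?_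
      exact continuous_pi (fun i => hev (v' i))
    · refine isClosed_iInter (fun i => isClosed_iInter (fun _ => ?_))
      exact isClosed_eq (hev (v i)) continuous_const
    · refine (isClosed_lim (k+1) (sn k v y1)).preimage
        (f := fun (P : OpT F) => sn k v (P.app x)) ?_
      refine continuous_pi (fun i => ?_)
      by_cases hi : i = k
      · have : (fun P : OpT F => sn k v (P.app x) i) = fun P : OpT F => P.app x := by
          funext P; simp [sn, hi]
        rw [this]
        exact hev x
      · have : (fun P : OpT F => sn k v (P.app x) i) = fun _ : OpT F => v i := by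
          funext P; simp [sn, hi]
        rw [this]
        exact continuous_const
  have hne : S.Nonempty := by
    obtain ⟨P, hP, hPv⟩ := exists_op hxy
    refine ⟨OpT.of P, ?_, ?_, ?_⟩
    · rw [OpT.app_of]; exact hP
    · intro i hi
      rw [OpT.app_of]
      have := hPv i (by omega)
      rw [sn_lt hi, sn_lt hi] at this
      exact this
    · have h2 := hPv k (by omega)
      rw [sn_self, sn_self] at h2
      rw [OpT.app_of, h2]
      exact hmin1.self
  have hmul : ∀ P ∈ S, ∀ Q ∈ S, P * Q ∈ S := by
    rintro P ⟨hP1, hP2, hP3⟩ Q ⟨hQ1, hQ2, hQ3⟩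
    refine ⟨?_, ?_, ?_⟩
    · rw [OpT.mul_app']
      exact IsOp.comp hP1 hQ1
    · intro i hi
      rw [OpT.mul_app, hQ2 i hi, hP2 i hi]
    · rw [OpT.mul_app]
      refine hQ3.trans ?_
      refine (hP1 (k+1) (sn k v (Q.app x))).congr (fun _ _ _ => rfl) ?_
      intro i hi j
      show P.app (sn k v (Q.app x) i) j = _
      rcases Nat.lt_or_ge i k with h | h
      · rw [sn_lt h, sn_lt h, hP2 i h]
      · have : i = k := by omega
        subst this
        rw [sn_self, sn_self]
  obtain ⟨e, he, hee⟩ := exists_idempotent_in_compact_subsemigroup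
    OpT.continuous_mul_right S hne hclosed.isCompact
    (fun P hP Q hQ => hmul P hP Q hQ)
  obtain ⟨he1, he2, he3⟩ := he
  have hez : e.app (e.app x) = e.app x := by rw [← OpT.mul_app, hee]
  refine ⟨e.app x, hmin1.lim he3, ?_, ?_⟩
  · refine (he1 (k+1) (sn k v x)).congr (fun _ _ _ => rfl) ?_
    intro i hi j
    show e.app (sn k v x i) j = _
    rcases Nat.lt_or_ge i k with h | h
    · rw [sn_lt h, sn_lt h, he2 i h]
    · have : i = k := by omega
      subst this
      rw [sn_self, sn_self]
  · refine (he1 (k+2) (sn (k+1) (sn k v (e.app x)) x)).congr (fun _ _ _ => rfl) ?_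
    intro i hi j
    show e.app (sn (k+1) (sn k v (e.app x)) x i) j = _
    rcases Nat.lt_or_ge i k with h | h
    · rw [sn_lt (by omega), sn_lt h, sn_lt (by omega), sn_lt h, he2 i h]
    · rcases Nat.lt_or_ge i (k+1) with h' | h'
      · have : i = k := by omega
        subst this
        rw [sn_lt (by omega), sn_self, sn_lt (by omega), sn_self, hez]
      · have : i = k+1 := by omega
        subst this
        rw [sn_self, sn_self]

end Idem

end Pool.Agent.K1H49.BinPart
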