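import Mathlib
import Pool.Agent.TH76.BinPart.Terminal
import Pool.Agent.K1H49.BinPart.Op

/-!
# The terminal lemma, assuming only that `0` is not a forward limit of the constant tower
-/

namespace Pool.Agent.K1H49.BinPart

open Pool.Agent.TH76.BinPart Finset

set_option linter.unusedSectionVars false

section Lift
variable {F : Type*} [Field F]

/-- closedness of the limit set, in elementary form -/
theorem lim1_of_approx {x y : ℕ → F}
    (h : ∀ K, ∃ z, Lim1 x z ∧ ∀ j, j ≤ K → z j = y j) : Lim1 x y := by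
  rw [lim1_iff]
  intro K
  obtain ⟨z, hz, hzy⟩ := h K
  rw [lim1_iff] at hz
  obtain ⟨m, hm, h1⟩ := hz K
  exact ⟨m, hm, fun j hj => by rw [h1 j hj, hzy j hj]⟩

variable [Finite F]

/-- limits of a shift lift to limits -/
theorem lift_shift {z x : ℕ → F} (s : ℕ) (h : Lim1 (fun j => z (s+j)) x) :
    ∃ y, Lim1 z y ∧ ∀ j, y (s+j) = x j := by
  rw [lim1_iff] at h
  obtain ⟨t, ht, hQ⟩ := lim_exists 1 (fun _ => z)
    (fun K' w => ∀ j, s + j ≤ K' → w 0 (s+j) = x j) (by
      intro K' w w' hww' hw j hj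
      rw [← hw j hj, hww' 0 (by norm_num) (s+j) hj]) (by
      intro K' w hw j hj
      exact hw j (by omega)) (by
      intro K'
      rcases Nat.lt_or_ge K' s with hlt | hge
      · exact ⟨1, le_rfl, fun j hj => by omega⟩
      · obtain ⟨K'', rfl⟩ : ∃ K'', K' = s + K'' := ⟨K' - s, by omega⟩
        obtain ⟨m', hm', h1⟩ := h K''
        refine ⟨m', hm', ?_⟩
        intro j hj
        rw [← h1 j (by omega), X_shift]
        simp only [st]
        rw [show s + K'' - (s+j) = K'' - j by omega])
  refine ⟨t 0, ht.coord 0 (by norm_num), ?_⟩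
  intro j
  exact hQ (s+j) j le_rfl

/-- limits of a coordinate lift to limits of the tuple -/
theorem lift_coord {k : ℕ} {v : ℕ → ℕ → F} {i : ℕ} (hi : i < k) {y : ℕ → F}
    (h : Lim1 (v i) y) : ∃ w, Lim k v w ∧ w i = y := by
  rw [lim1_iff] at h
  obtain ⟨w, hw, hQ⟩ := lim_exists k v
    (fun K w => ∀ j, j ≤ K → w i j = y j) (by
      intro K w w' hww' hw j hj
      rw [← hw j hj, hww' i hi j hj]) (by
      intro K w hw j hj
      exact hw j (by omega)) (by
      intro K
      obtain ⟨m, hm, h1⟩ := h K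
      exact ⟨m, hm, fun j hj => h1 j hj⟩)
  refine ⟨w, hw, ?_⟩
  funext j
  exact hQ j j le_rfl

/-- one-coordinate minimality -/
def Min1 (z : ℕ → F) : Prop := ∀ w, Lim1 z w → Lim1 w z

theorem min1_of_min {k : ℕ} {v : ℕ → ℕ → F} (h : Min k v) {i : ℕ} (hi : i < k) :
    Min1 (v i) := by
  intro y hy
  obtain ⟨w, hw, rfl⟩ := lift_coord hi hy
  exact (h w hw).coord i hi

theorem Min1.self {z : ℕ → F} (h : Min1 z) : Lim1 z z := by
  obtain ⟨w, hw⟩ := lim_nonempty 1 (fun _ => z)
  have h1 := hw.coord 0 (by norm_num)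
  exact Lim.trans h1 (h (w 0) h1)

theorem Min1.shift {z : ℕ → F} (h : Min1 z) (s : ℕ) : Min1 (fun j => z (s+j)) := by
  intro x hx
  obtain ⟨y, hy, hyx⟩ := lift_shift s hx
  have h1 : Lim1 (fun j => y (s+j)) (fun j => z (s+j)) := (h y hy).shift s
  rw [show (fun j => y (s+j)) = x from funext hyx] at h1
  exact h1

/-- if the limit set of a minimal tower contains a pair differing by `c` in coordinate zero only,
then it is closed under `+ c e₀` -/
theorem add_closed {z x : ℕ → F} {c : F}
    (hx : Lim1 z x) (hxc : Lim1 z (fun j => x j + if j = 0 then c else 0))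
    (hmin : ∀ y, Lim1 z y → Lim1 x y) (hsurj : ∀ x : F, ∃ n : ℕ, (n:F) = x) (hc : c ≠ 0) :
    ∀ y, Lim1 z y → ∀ f : F, Lim1 z (fun j => y j + if j = 0 then f else 0) := by
  have step : ∀ y, Lim1 z y → Lim1 z (fun j => y j + if j = 0 then c else 0) := by
    intro y hy
    exact Lim.trans hxc ((hmin y hy).translate c)
  have hall : ∀ y, Lim1 z y → ∀ n : ℕ, Lim1 z (fun j => y j + if j = 0 then (n:F)*c else 0) := by
    intro y hy n
    induction n with
    | zero => simpa using hy
    | succ n ih =>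
      have h1 := step _ ih
      have : (fun j => (y j + if j = 0 then (n:F)*c else 0) + if j = 0 then c else 0)
          = (fun j => y j + if j = 0 then ((n+1:ℕ):F)*c else 0) := by
        funext j
        by_cases hj : j = 0
        · simp only [hj, if_true]; push_cast; ring
        · simp [hj]
      rw [← this]
      exact h1
  intro y hy f
  obtain ⟨n, hn⟩ := hsurj (f/c)
  have := hall y hy n
  rw [hn, div_mul_cancel₀ _ hc] at this
  exact this

end Lift

section Terminal
variable {F : Type*} [Field F] [Finite F]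

theorem terminal' (h2 : (2:F) ≠ 0) (hsurj : ∀ x : F, ∃ n : ℕ, (n:F) = x)
    (hN : ¬ Lim1 (fun _ => (1:F)) (fun _ => 0))
    {z : ℕ → F} (hmin : Min1 z) (K m : ℕ)
    (h : ∀ u, m ≤ u → aa F u = X z K u) : False := by
  classical
  set ρ : ℕ → F := fun j => z (K+j) with hρ
  set m0 := max m 1 with hm0
  have hXρ : ∀ j u, X ρ j u = X z (K+j) u := by
    intro j u
    rw [hρ, X_shift]
  -- F0
  have F0 : ∀ j u, m0 ≤ u → X ρ j u = aa F u := by
    intro j
    induction j with
    | zero =>
      intro u hu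
      rw [hXρ, h u (by omega)]
      rfl
    | succ j ih =>
      intro u hu
      have hu1 : 1 ≤ u := by omega
      have e1 := X_even ρ j u hu1
      have e2 := aa_even (F := F) u hu1
      rw [ih (2*u) (by omega), ih (2*u-1) (by omega), e2] at e1
      exact (add_left_cancel e1).symm
  -- F1
  have F1 : ∀ z, Lim1 (fun _ => (1:F)) z → Lim1 ρ z := by
    intro z hz
    rw [lim1_iff] at hz ⊢
    intro K'
    obtain ⟨m'', hm'', h1⟩ := hz (K' + m0)
    refine ⟨2^m0*m'', Nat.mul_pos (by positivity) hm'', ?_⟩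
    intro j hj
    have h2' := h1 j (by omega)
    rw [X_one] at h2'
    have e1 : 2^(K'-j)*(2^m0*m'') = 2^(K'+m0-j)*m'' := by
      rw [← mul_assoc, ← pow_add]; congr 2; omega
    rw [e1, F0 j _ ?_, h2']
    have : m0 < 2^m0 := Nat.lt_two_pow_self
    have h3 : 2^m0 ≤ 2^(K'+m0-j) := Nat.pow_le_pow_right (by norm_num) (by omega)
    have h4 : 2^(K'+m0-j) ≤ 2^(K'+m0-j)*m'' := Nat.le_mul_of_pos_right _ (by omega)
    omega
  have F1' : ∀ z, Lim1 (fun _ => (1:F)) z → Lim1 z ρ := by
    intro x hx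
    exact (hmin.shift K) x (F1 x hx)
  have Amin : ∀ z z', Lim1 (fun _ => (1:F)) z → Lim1 (fun _ => (1:F)) z' → Lim1 z z' := by
    intro z z' hz hz'
    exact Lim.trans (F1' z hz) (F1 z' hz')
  have Ashift : ∀ z s, Lim1 (fun _ => (1:F)) z → Lim1 (fun _ => (1:F)) (fun j => z (s+j)) := by
    intro z s hz
    exact hz.shift s
  -- F4
  have F4 : ∀ z z', Lim1 (fun _ => (1:F)) z → Lim1 (fun _ => (1:F)) z' →
      (∀ j, 1 ≤ j → z j = z' j) → z 0 = z' 0 := by
    intro z z' hz hz' heq
    by_contra hne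
    set c := z' 0 - z 0 with hc
    have hc0 : c ≠ 0 := sub_ne_zero.mpr (Ne.symm hne)
    have hz'eq : z' = fun j => z j + if j = 0 then c else 0 := by
      funext j
      rcases Nat.eq_zero_or_pos j with rfl | hj
      · simp [hc]
      · rw [if_neg (by omega), add_zero, heq j hj]
    have hadd := add_closed (z := fun _ => (1:F)) (x := z) (c := c) hz (by rw [← hz'eq]; exact hz')
      (fun y hy => Amin z y hz hy) hsurj hc0
    have hC : ∀ n, ∃ y, Lim1 (fun _ => (1:F)) y ∧ ∀ j, j < n → y j = 0 := by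
      intro n
      induction n with
      | zero => exact ⟨z, hz, fun j hj => absurd hj (by omega)⟩
      | succ n ih =>
        obtain ⟨y, hy, hy0⟩ := ih
        obtain ⟨y', hy', hy1⟩ := lift_shift (z := fun _ => (1:F)) 1 hy
        refine ⟨_, hadd y' hy' (-(y' 0)), ?_⟩
        intro j hj
        rcases Nat.eq_zero_or_pos j with rfl | hj0
        · simp
        · rw [if_neg (by omega), add_zero, show j = 1 + (j-1) by omega, hy1, hy0 _ (by omega)]
    apply hN
    apply lim1_of_approx
    intro K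
    obtain ⟨y, hy, hy0⟩ := hC (K+1)
    exact ⟨y, hy, fun j hj => hy0 j (by omega)⟩
  -- F5
  have F5 : ∃ L, ∀ z z', Lim1 (fun _ => (1:F)) z → Lim1 (fun _ => (1:F)) z' →
      (∀ j, 1 ≤ j → j ≤ L → z j = z' j) → z 0 = z' 0 := by
    by_contra hcon
    push Not at hcon
    obtain ⟨w, z, hw, hz, hQ⟩ := lim_exists₂ 1 (fun _ _ => (1:F))
      (fun K w z => w 0 0 ≠ z 0 0 ∧ ∀ j, 1 ≤ j → j ≤ K → w 0 j = z 0 j) (by
        rintro K w w' z z' hw hz ⟨h1, h2⟩
        refine ⟨?_, ?_⟩
        · rw [← hw 0 (by norm_num) 0 (by omega), ← hz 0 (by norm_num) 0 (by omega)]; exact h1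
        · intro j hj hjK
          rw [← hw 0 (by norm_num) j hjK, ← hz 0 (by norm_num) j hjK]; exact h2 j hj hjK) (by
        rintro K w z ⟨h1, h2⟩
        exact ⟨h1, fun j hj hjK => h2 j hj (by omega)⟩) (by
        intro K
        obtain ⟨z, z', hz, hz', h1, h2⟩ := hcon K
        rw [lim1_iff] at hz hz'
        obtain ⟨m, hm, h3⟩ := hz K
        obtain ⟨m', hm', h4⟩ := hz' K
        refine ⟨m, m', hm, hm', ?_, ?_⟩
        · simp only [st]
          rw [h3 0 (by omega), h4 0 (by omega)]
          exact h2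
        · intro j hj hjK
          simp only [st]
          rw [h3 j hjK, h4 j hjK]
          exact h1 j hj hjK)
    apply (hQ 0).1
    apply F4 (w 0) (z 0) (hw.coord 0 (by norm_num)) (hz.coord 0 (by norm_num))
    intro j hj
    exact (hQ j).2 j hj le_rfl
  obtain ⟨L, hL⟩ := F5
  -- F6
  set P := (Nat.card (Fin L → F)).factorial with hP
  have hP1 : 1 ≤ P := Nat.factorial_pos _
  have F6 : ∀ z, Lim1 (fun _ => (1:F)) z → ∀ j, z (j+P) = z j := by
    intro z hz
    apply periodic_of_backward
    intro j j' hjj'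
    have := hL (fun i => z (j+i)) (fun i => z (j'+i)) (Ashift z j hz) (Ashift z j' hz) hjj'
    simpa using this
  -- F7
  have F7 : ∃ K0, ∀ m, 1 ≤ m → aa F (2^(K0+P)*m) = aa F (2^K0*m) := by
    by_contra hcon
    push Not at hcon
    obtain ⟨w, hw, hQ⟩ := lim_exists 1 (fun _ _ => (1:F))
      (fun K w => P ≤ K → w 0 0 ≠ w 0 P) (by
        intro K w w' hww' hw hPK
        rw [← hww' 0 (by norm_num) 0 (by omega), ← hww' 0 (by norm_num) P hPK]
        exact hw hPK) (by
        intro K w hw hPK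
        exact hw (by omega)) (by
        intro K
        rcases Nat.lt_or_ge K P with hlt | hge
        · exact ⟨1, le_rfl, fun h => by omega⟩
        · obtain ⟨K0, rfl⟩ : ∃ K0, K = K0 + P := ⟨K - P, by omega⟩
          obtain ⟨m', hm', h1⟩ := hcon K0
          refine ⟨m', hm', ?_⟩
          intro _
          simp only [st]
          rw [X_one, X_one, Nat.sub_zero, show K0 + P - P = K0 by omega]
          exact h1)
    apply hQ P le_rfl
    have := F6 (w 0) (hw.coord 0 (by norm_num)) 0
    rw [Nat.zero_add] at this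
    exact this.symm
  obtain ⟨K0, hK0⟩ := F7
  exact not_eventually_periodic_levels h2 K0 P hP1 hK0

end Terminal

end Pool.Agent.K1H49.BinPart
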