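import Mathlib
import Pool.Agent.TH76.BinPart.Descent
import Pool.Agent.K1H49.BinPart.Terminal2

/-!
# The zero tower is a forward limit of the constant tower
-/

namespace Pool.Agent.K1H49.BinPart

open Pool.Agent.TH76.BinPart Finset

set_option linter.unusedSectionVars false

section Exit
variable {F : Type*} [Field F] [Finite F]

/-- the exit configuration -/
theorem exit_exists (h2 : (2:F) ≠ 0) (hsurj : ∀ x : F, ∃ n : ℕ, (n:F) = x)
    (hN : ¬ Lim1 (fun _ => (1:F)) (fun _ => 0)) {k : ℕ} {v : ℕ → ℕ → F} {z : ℕ → F}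
    (hmin : Min (k+1) (sn k v z))
    (hlim : Lim (k+2) (sn (k+1) (sn k v z) (fun _ => 1)) (sn (k+1) (sn k v z) z)) :
    ∃ (w : ℕ → ℕ → F) (δ : F), δ ≠ 0 ∧ Lim (k+2) (sn (k+1) (sn k v z) (fun _ => 1)) w ∧
      ∀ j, w (k+1) j = w k j + δ := by
  classical
  set V := sn (k+1) (sn k v z) (fun _ => (1:F)) with hV
  have hVk : V k = z := by rw [hV, sn_lt (by omega), sn_self]
  have hVk1 : V (k+1) = fun _ => (1:F) := by rw [hV, sn_self]
  have hzmin : Min1 z := by
    have := min1_of_min hmin (i := k) (by omega)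
    rw [sn_self] at this
    exact this
  set d : ℕ → F := fun j => 1 + (-1) * z j with hd
  have hXd : ∀ j n, X d j n = aa F n - X z j n := by
    intro j n
    have e1 : X d j n = X (fun _ => (1:F)) j n + (-1) * X z j n := by
      rw [← X_smul, ← X_add]
    rw [e1, X_one]
    ring
  have hcentre : ∀ K, ∃ m, 1 ≤ m ∧ ∀ j, j ≤ K → X d j (2^(K-j)*m) = 0 := by
    intro K
    obtain ⟨m, hm, h1⟩ := hlim K
    refine ⟨m, hm, ?_⟩
    intro j hj
    have a1 := h1 k (by omega) j hj
    have a2 := h1 (k+1) (by omega) j hj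
    rw [hVk, sn_lt (by omega), sn_self] at a1
    rw [hVk1, sn_self, X_one] at a2
    rw [hXd, a1, a2, sub_self]
  have hexit : ∀ K, ∃ m, 1 ≤ m ∧ ∃ δ' : F, δ' ≠ 0 ∧ ∀ j, j ≤ K → X d j (2^(K-j)*m) = δ' := by
    intro K
    obtain ⟨m, hm, h1⟩ := hcentre K
    have hex : ∃ u, m < u ∧ X d K u ≠ 0 := by
      by_contra hcon
      push Not at hcon
      refine terminal' h2 hsurj hN hzmin K m ?_
      intro u hu
      have hdu : X d K u = 0 := by
        rcases Nat.lt_or_ge m u with h | h
        · exact hcon u h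
        · have : u = m := by omega
          rw [this]
          have := h1 K le_rfl
          simpa using this
      rw [hXd] at hdu
      linear_combination hdu
    let u := Nat.find hex
    have hu := Nat.find_spec hex
    have hu' : ∀ u', m ≤ u' → u' < u → X d K u' = 0 := by
      intro u' h3 h4
      rcases Nat.lt_or_ge m u' with h | h
      · have := Nat.find_min hex h4
        push Not at this
        exact this h
      · have : u' = m := by omega
        rw [this]
        have := h1 K le_rfl
        simpa using this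
    refine ⟨u, by have := hu.1; omega, X d K u, hu.2, ?_⟩
    exact exit_lemma d K m h1 u hu.1 hu'
  obtain ⟨w, hw, hQ⟩ := lim_exists (k+2) V
    (fun K w => (w (k+1) 0 - w k 0 ≠ 0) ∧
      ∀ j, j ≤ K → w (k+1) j - w k j = w (k+1) 0 - w k 0) (by
      rintro K w w' hww' ⟨h3, h4⟩
      have hd' : ∀ j, j ≤ K → w' (k+1) j - w' k j = w (k+1) j - w k j := by
        intro j hj
        rw [hww' k (by omega) j hj, hww' (k+1) (by omega) j hj]
      refine ⟨?_, ?_⟩
      · rw [hd' 0 (by omega)]; exact h3
      · intro j hj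
        rw [hd' j hj, hd' 0 (by omega)]
        exact h4 j hj) (by
      rintro K w ⟨h3, h4⟩
      exact ⟨h3, fun j hj => h4 j (by omega)⟩) (by
      intro K
      obtain ⟨m, hm, δ', hδ', h3⟩ := hexit K
      refine ⟨m, hm, ?_⟩
      have h4 : ∀ j, j ≤ K → st V K m (k+1) j - st V K m k j = δ' := by
        intro j hj
        rw [← h3 j hj, hXd]
        simp only [st]
        rw [hVk, hVk1, X_one]
      refine ⟨?_, ?_⟩
      · rw [h4 0 (by omega)]; exact hδ'
      · intro j hj
        rw [h4 j hj, h4 0 (by omega)])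
  refine ⟨w, w (k+1) 0 - w k 0, (hQ 0).1, hw, ?_⟩
  intro j
  have := (hQ j).2 j le_rfl
  linear_combination this

end Exit

section Coef
variable {F : Type*} [Field F]

/-- the coefficients of the block forms -/
def cc (δ : ℕ → F) (l t : ℕ) : F := if l ≤ t then ∏ j ∈ Finset.Ico l t, δ j else 0

theorem cc_self (δ : ℕ → F) (l : ℕ) : cc δ l l = 1 := by simp [cc]

theorem cc_gt (δ : ℕ → F) {l t : ℕ} (h : t < l) : cc δ l t = 0 := by
  rw [cc, if_neg (by omega)]

theorem cc_succ (δ : ℕ → F) {l t : ℕ} (h : l ≤ t) : cc δ l (t+1) = cc δ l t * δ t := by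
  rw [cc, cc, if_pos h, if_pos (by omega), Finset.prod_Ico_succ_top h]

theorem cc_congr {δ δ' : ℕ → F} {l t : ℕ} (h : ∀ j, j < t → δ j = δ' j) :
    cc δ l t = cc δ' l t := by
  rw [cc, cc]
  split_ifs
  · apply Finset.prod_congr rfl
    intro j hj
    exact h j (Finset.mem_Ico.mp hj).2
  · rfl

theorem cc_mul (δ : ℕ → F) {i t : ℕ} (h : i ≤ t) : cc δ 0 t = cc δ 0 i * cc δ i t := by
  induction t with
  | zero =>
    have : i = 0 := by omega
    subst this
    rw [cc_self, mul_one]
  | succ t ih =>
    rcases Nat.lt_or_ge t i with h1 | h1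
    · have : i = t + 1 := by omega
      subst this
      rw [cc_self, mul_one]
    · rw [cc_succ δ (by omega), cc_succ δ h1, ih h1, mul_assoc]

theorem cc_ne_zero {δ : ℕ → F} {k t : ℕ} (h : ∀ j, j < k → δ j ≠ 0) (ht : t ≤ k) :
    cc δ 0 t ≠ 0 := by
  rw [cc, if_pos (Nat.zero_le _)]
  apply Finset.prod_ne_zero_iff.mpr
  intro j hj
  exact h j (by have := (Finset.mem_Ico.mp hj).2; omega)

theorem dot_split (δ : ℕ → F) (v : ℕ → ℕ → F) (i : ℕ) (j : ℕ) : ∀ n, i ≤ n →
    dot (n+1) (cc δ 0) v j = dot (i+1) (cc δ 0) v j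
      + cc δ 0 (i+1) * dot (n+1) (cc δ (i+1)) v j := by
  intro n hn
  induction n with
  | zero =>
    have : i = 0 := by omega
    subst this
    have : dot (0+1) (cc δ (0+1)) v j = 0 := by
      simp only [dot, Finset.sum_range_one, zero_add]
      rw [cc_gt δ (by norm_num), zero_mul]
    rw [this, mul_zero, add_zero]
  | succ n ih =>
    rcases Nat.lt_or_ge n i with h1 | h1
    · have : i = n + 1 := by omega
      subst this
      have : dot (n+1+1) (cc δ (n+1+1)) v j = 0 := by
        simp only [dot]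
        apply Finset.sum_eq_zero
        intro t ht
        rw [cc_gt δ (by have := Finset.mem_range.mp ht; omega), zero_mul]
      rw [this, mul_zero, add_zero]
    · have ih' := ih h1
      simp only [dot] at ih' ⊢
      rw [Finset.sum_range_succ _ (n+1), ih', Finset.sum_range_succ (fun t => cc δ (i+1) t * v t j) (n+1),
        cc_mul δ (i := i+1) (t := n+1) (by omega)]
      ring

end Coef

section Stage
variable {F : Type*} [Field F] [Finite F]

/-- the inductive configuration -/
def Conf (k : ℕ) (v : ℕ → ℕ → F) (δ : ℕ → F) : Prop :=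
  Min k v ∧ (∀ j, j < k → δ j ≠ 0) ∧
  (∀ i, i < k → ∀ l, l ≤ i → Lim1 (fun _ => (1:F)) (dot (i+1) (cc δ l) v)) ∧
  (∀ l, l ≤ k → ∀ y, Lim1 (dot (k+1) (cc δ l) (sn k v (fun _ => 1))) y →
    Lim1 (fun _ => (1:F)) y)

theorem conf_zero : Conf 0 (fun _ _ => (0:F)) (fun _ => 1) := by
  refine ⟨?_, fun j hj => absurd hj (by omega), fun i hi => absurd hi (by omega), ?_⟩
  · intro w _ K
    exact ⟨1, le_rfl, fun i hi => absurd hi (by omega)⟩
  · intro l hl y hy
    have : l = 0 := by omega
    subst this
    have e : dot (0+1) (cc (fun _ => (1:F)) 0) (sn 0 (fun _ _ => (0:F)) (fun _ => 1))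
        = fun _ => (1:F) := by
      funext j
      simp only [dot, zero_add, Finset.sum_range_one]
      rw [cc_self, sn_self, one_mul]
    rw [e] at hy
    exact hy

theorem conf_succ (h2 : (2:F) ≠ 0) (hsurj : ∀ x : F, ∃ n : ℕ, (n:F) = x)
    (hN : ¬ Lim1 (fun _ => (1:F)) (fun _ => 0)) {k : ℕ} {v : ℕ → ℕ → F} {δ : ℕ → F}
    (h : Conf k v δ) : ∃ w δ', Conf (k+1) (w : ℕ → ℕ → F) δ' := by
  classical
  obtain ⟨hmin, hδ, hB, hO⟩ := h
  obtain ⟨z, hz1, hz2, hz3⟩ := exists_idem hmin (fun _ => (1:F))
  obtain ⟨w, ε, hε, hw, hwε⟩ := exit_exists h2 hsurj hN hz1 hz3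
  have hw1 : Lim (k+1) (sn k v z) w := by
    refine (hw.mono (k' := k+1) (by omega)).congr ?_ (fun _ _ _ => rfl)
    intro i hi j
    rw [sn_lt (by omega)]
  have hvw : Lim k v w := by
    refine (hw1.mono (k' := k) (by omega)).congr ?_ (fun _ _ _ => rfl)
    intro i hi j
    rw [sn_lt (by omega)]
  set δ' : ℕ → F := fun j => if j = k then ε else δ j with hδ'
  have hcc : ∀ l t, t ≤ k → cc δ' l t = cc δ l t := by
    intro l t ht
    apply cc_congr
    intro j hj
    simp only [hδ']
    rw [if_neg (by omega)]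
  have hδk : δ' k = ε := by simp [hδ']
  refine ⟨w, δ', hz1.lim hw1, ?_, ?_, ?_⟩
  · intro j hj
    simp only [hδ']
    split_ifs with h1
    · exact hε
    · exact hδ j (by omega)
  · intro i hi l hl
    have e1 : dot (i+1) (cc δ' l) w = dot (i+1) (cc δ l) w := by
      funext j
      simp only [dot]
      apply Finset.sum_congr rfl
      intro t ht
      rw [hcc l t (by have := Finset.mem_range.mp ht; omega)]
    rw [e1]
    rcases Nat.lt_or_ge i k with hik | hik
    · exact Lim.trans (hB i hik l hl) ((hvw.mono (k' := i+1) (by omega)).dot (cc δ l))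
    · have : i = k := by omega
      subst this
      exact hO l hl _ ((hz2.trans hw1).dot (cc δ l))
  · intro l hl y hy
    rcases Nat.lt_or_ge l (k+1) with hlk | hlk
    · -- the open form
      set e : ℕ → F := fun t => if t < k then cc δ l t else if t = k+1 then cc δ l k else 0
        with he
      have h5 := hw.dot e
      have e1 : dot (k+2) e (sn (k+1) (sn k v z) (fun _ => 1))
          = dot (k+1) (cc δ l) (sn k v (fun _ => 1)) := by
        funext j
        simp only [dot]
        rw [Finset.sum_range_succ, Finset.sum_range_succ, Finset.sum_range_succ]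
        have a1 : ∑ x ∈ range k, e x * sn (k+1) (sn k v z) (fun _ => 1) x j
            = ∑ x ∈ range k, cc δ l x * sn k v (fun _ => 1) x j := by
          apply Finset.sum_congr rfl
          intro x hx
          have hx' := Finset.mem_range.mp hx
          rw [sn_lt (by omega), sn_lt hx', sn_lt hx', he]
          simp only
          rw [if_pos hx']
        have a2 : e k = 0 := by simp [he]
        have a3 : e (k+1) = cc δ l k := by simp [he]
        rw [a1, a2, a3, sn_self, sn_self]
        ring
      have e2 : dot (k+2) e w = dot (k+2) (cc δ' l) (sn (k+1) w (fun _ => 1)) := by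
        funext j
        simp only [dot]
        rw [Finset.sum_range_succ, Finset.sum_range_succ, Finset.sum_range_succ,
          Finset.sum_range_succ]
        have a1 : ∑ x ∈ range k, cc δ' l x * sn (k+1) w (fun _ => 1) x j
            = ∑ x ∈ range k, e x * w x j := by
          apply Finset.sum_congr rfl
          intro x hx
          have hx' := Finset.mem_range.mp hx
          rw [sn_lt (by omega), hcc l x (by omega), he]
          simp only
          rw [if_pos hx']
        have a2 : e k = 0 := by simp [he]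
        have a3 : e (k+1) = cc δ l k := by simp [he]
        rw [a1, a2, a3, sn_self, sn_lt (by omega), hcc l k le_rfl, cc_succ δ' (by omega), hδk,
          hcc l k le_rfl, hwε]
        ring
      rw [e1, e2] at h5
      exact hO l (by omega) _ (Lim.trans h5 hy)
    · have : l = k+1 := by omega
      subst this
      have e1 : dot (k+1+1) (cc δ' (k+1)) (sn (k+1) w (fun _ => 1)) = fun _ => (1:F) := by
        funext j
        simp only [dot]
        rw [Finset.sum_range_succ, cc_self, sn_self, one_mul, Finset.sum_eq_zero, zero_add]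
        intro x hx
        rw [cc_gt δ' (by have := Finset.mem_range.mp hx; omega), zero_mul]
      rw [e1] at hy
      exact hy

theorem conf_exists (h2 : (2:F) ≠ 0) (hsurj : ∀ x : F, ∃ n : ℕ, (n:F) = x)
    (hN : ¬ Lim1 (fun _ => (1:F)) (fun _ => 0)) (k : ℕ) : ∃ v δ, Conf k (v : ℕ → ℕ → F) δ := by
  induction k with
  | zero => exact ⟨_, _, conf_zero⟩
  | succ k ih =>
    obtain ⟨v, δ, h⟩ := ih
    exact conf_succ h2 hsurj hN h

/-- **Theorem 1** -/
theorem lim_zero (h2 : (2:F) ≠ 0) (hsurj : ∀ x : F, ∃ n : ℕ, (n:F) = x) :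
    Lim1 (fun _ => (1:F)) (fun _ => 0) := by
  classical
  by_contra hN
  obtain ⟨K, hK⟩ : ∃ K, ∀ z, Lim1 (fun _ => (1:F)) z → ¬ ∀ j, j ≤ K → z j = 0 := by
    by_contra hcon
    push Not at hcon
    exact hN (lim1_of_approx hcon)
  haveI := Fintype.ofFinite F
  set M := Fintype.card (Fin (K+1) → F) with hM
  obtain ⟨v, δ, hmin, hδ, hB, _⟩ := conf_exists h2 hsurj hN (M+1)
  obtain ⟨a, b, hab, hf⟩ := Fintype.exists_ne_map_eq_of_card_lt
    (fun (a : Fin (M+1)) => (fun i : Fin (K+1) => dot (a.1+1) (cc δ 0) v i.1)) (by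
      rw [Fintype.card_fin]; omega)
  have main : ∀ a b : Fin (M+1), a.1 < b.1 →
      (fun i : Fin (K+1) => dot (a.1+1) (cc δ 0) v i.1)
        = (fun i : Fin (K+1) => dot (b.1+1) (cc δ 0) v i.1) → False := by
    intro a b hlt hf
    refine hK _ (hB b.1 (by have := b.2; omega) (a.1+1) (by omega)) ?_
    intro j hj
    have h1 := congrFun hf ⟨j, by omega⟩
    simp only at h1
    rw [dot_split δ v a.1 j b.1 (by omega)] at h1
    have h3 : cc δ 0 (a.1+1) * dot (b.1+1) (cc δ (a.1+1)) v j = 0 := by
      linear_combination (-1:F) * h1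
    rcases mul_eq_zero.mp h3 with h4 | h4
    · exact absurd h4 (cc_ne_zero hδ (by have := a.2; omega))
    · exact h4
  have hne : a.1 ≠ b.1 := fun h => hab (Fin.ext h)
  rcases lt_or_gt_of_ne hne with h | h
  · exact main a b h hf
  · exact main b a h hf.symm

end Stage

end Pool.Agent.K1H49.BinPart
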