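import Mathlib
import Pool.Agent.K1H49.BinPart.Zero

/-!
# Minimal towers have finite support
-/

namespace Pool.Agent.K1H49.BinPart

open Pool.Agent.TH76.BinPart Finset

set_option linter.unusedSectionVars false

section NZ
variable {F : Type*} [Field F]

/-- iterated partial sums of `a` -/
def DD (F : Type*) [Field F] : ℕ → ℕ → F
  | 0, m => aa F m
  | t+1, m => ∑ i ∈ range m, DD F t i

theorem DD_zero (m : ℕ) : DD F 0 m = aa F m := rfl

theorem DD_succ (t m : ℕ) : DD F (t+1) m = ∑ i ∈ range m, DD F t i := rfl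

theorem DD_step (t m : ℕ) : DD F (t+1) (m+1) = DD F (t+1) m + DD F t m := by
  rw [DD_succ, DD_succ, Finset.sum_range_succ]

theorem DD_tri : ∀ m, (∀ t, m < t → DD F t m = 0) ∧ DD F m m = 1 := by
  intro m
  induction m with
  | zero =>
    refine ⟨?_, by rw [DD_zero, aa_zero]⟩
    intro t ht
    obtain ⟨s, rfl⟩ : ∃ s, t = s + 1 := ⟨t-1, by omega⟩
    rw [DD_succ, Finset.sum_range_zero]
  | succ m ih =>
    refine ⟨?_, ?_⟩
    · intro t ht
      obtain ⟨s, rfl⟩ : ∃ s, t = s + 1 := ⟨t-1, by omega⟩
      rw [DD_step, ih.1 (s+1) (by omega), ih.1 s (by omega), add_zero]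
    · rw [DD_step, ih.1 (m+1) (by omega), ih.2, zero_add]

theorem DD_double0 (m : ℕ) : DD F 0 (2*m) = DD F 0 m + 2 * DD F 1 m := by
  induction m with
  | zero => simp [DD_succ]
  | succ m ih =>
    rw [DD_step, DD_zero, DD_zero]
    rw [DD_zero, DD_zero] at ih
    have h1 := aa_succ (F := F) (2*m+1)
    have h2 := aa_succ (F := F) (2*m)
    rw [show (2*m+1+1)/2 = m+1 by omega] at h1
    rw [show (2*m+1)/2 = m by omega] at h2
    rw [show 2*(m+1) = 2*m+1+1 by ring, h1, h2, ih, DD_zero]
    ring

theorem sum_two_mul (f : ℕ → F) (m : ℕ) :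
    ∑ i ∈ range (2*m), f i = ∑ i ∈ range m, (f (2*i) + f (2*i+1)) := by
  induction m with
  | zero => simp
  | succ m ih =>
    rw [show 2*(m+1) = 2*m+1+1 by ring, Finset.sum_range_succ, Finset.sum_range_succ, ih,
      Finset.sum_range_succ]
    ring

theorem DD_double : ∀ t : ℕ, ∃ μ : ℕ → F, ∀ m, DD F t (2*m) =
    2^(t+1) * DD F (t+1) m + ∑ s ∈ range (t+1), μ s * DD F s m := by
  intro t
  induction t using Nat.strong_induction_on with
  | _ t ih =>
    cases t with
    | zero =>
      refine ⟨fun _ => 1, ?_⟩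
      intro m
      rw [DD_double0]
      simp
      ring
    | succ t =>
      obtain ⟨μ, hμ⟩ := ih t (by omega)
      -- the sum formula for `DD (t+1) (2m)`
      have hs : ∀ m, DD F (t+1) (2*m) = ∑ i ∈ range m, (DD F t (2*i) + DD F t (2*i+1)) := by
        intro m
        rw [DD_succ, sum_two_mul]
      -- a second family
      have hodd : ∃ ν : ℕ → F, ∀ i, DD F t (2*i+1) = DD F t (2*i) +
          ∑ s ∈ range (t+1), ν s * DD F s i := by
        cases t with
        | zero =>
          refine ⟨fun _ => 1, ?_⟩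
          intro i
          rw [DD_zero, DD_zero, aa_succ, show (2*i+1)/2 = i by omega]
          simp [DD_zero]
        | succ t =>
          obtain ⟨ν, hν⟩ := ih t (by omega)
          refine ⟨fun s => if s = t+1 then 2^(t+1) else ν s, ?_⟩
          intro i
          rw [DD_step, hν i, Finset.sum_range_succ _ (t+1)]
          simp only [if_true]
          have : ∑ x ∈ range (t+1), (if x = t+1 then (2:F)^(t+1) else ν x) * DD F x i
              = ∑ s ∈ range (t+1), ν s * DD F s i := by
            apply Finset.sum_congr rfl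
            intro x hx
            rw [if_neg (by have := Finset.mem_range.mp hx; omega)]
          rw [this]
          ring
      obtain ⟨ν, hν⟩ := hodd
      refine ⟨fun s => if s = 0 then 0 else 2 * μ (s-1) + ν (s-1), ?_⟩
      intro m
      rw [hs m]
      have e1 : ∀ i ∈ range m, DD F t (2*i) + DD F t (2*i+1)
          = 2^(t+1+1) * DD F (t+1) i + ∑ s ∈ range (t+1), (2 * μ s + ν s) * DD F s i := by
        intro i _
        rw [hν i, hμ i]
        have : ∑ s ∈ range (t+1), (2 * μ s + ν s) * DD F s i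
            = 2 * ∑ s ∈ range (t+1), μ s * DD F s i + ∑ s ∈ range (t+1), ν s * DD F s i := by
          rw [Finset.mul_sum, ← Finset.sum_add_distrib]
          apply Finset.sum_congr rfl
          intro s _
          ring
        rw [this]
        ring
      rw [Finset.sum_congr rfl e1, Finset.sum_add_distrib, ← Finset.mul_sum, ← DD_succ,
        Finset.sum_comm, Finset.sum_range_succ' _ (t+1)]
      congr 1
      simp only [if_true, zero_mul, add_zero]
      apply Finset.sum_congr rfl
      intro s _
      rw [if_neg (by omega), Nat.add_sub_cancel, ← Finset.mul_sum, ← DD_succ]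

theorem nz (h2 : (2:F) ≠ 0) (m : ℕ) : ∃ j, aa F (2^j*m) ≠ 0 := by
  by_contra hcon
  push Not at hcon
  have key : ∀ t m, (∀ j, aa F (2^j*m) = 0) → DD F t m = 0 := by
    intro t
    induction t using Nat.strong_induction_on with
    | _ t ih =>
      intro m hm
      cases t with
      | zero =>
        have := hm 0
        rw [pow_zero, one_mul] at this
        exact this
      | succ t =>
        obtain ⟨μ, hμ⟩ := DD_double (F := F) t
        have h1 := hμ m
        rw [ih t (by omega) (2*m) (fun j => by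
          have := hm (j+1)
          rw [show 2^(j+1)*m = 2^j*(2*m) by ring] at this
          exact this)] at h1
        rw [Finset.sum_eq_zero (fun s hs => by
          rw [ih s (Finset.mem_range.mp hs) m hm, mul_zero]), add_zero] at h1
        rcases mul_eq_zero.mp h1.symm with h3 | h3
        · exact absurd h3 (pow_ne_zero _ h2)
        · exact h3
  have h1 := key m m hcon
  rw [(DD_tri m).2] at h1
  exact one_ne_zero h1

end NZ

section Tau
variable {F : Type*} [Field F] [Finite F]

/-- there is a forward limit of the constant tower of the form `(c,0,0,…)`, `c ≠ 0` -/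
theorem lim_delta (h2 : (2:F) ≠ 0) (hsurj : ∀ x : F, ∃ n : ℕ, (n:F) = x) :
    ∃ c : F, c ≠ 0 ∧ Lim1 (fun _ => (1:F)) (fun j => if j = 0 then c else 0) := by
  classical
  have h0 := lim_zero (F := F) h2 hsurj
  rw [lim1_iff] at h0
  obtain ⟨w, hw, hQ⟩ := lim_exists 1 (fun _ _ => (1:F))
    (fun K w => w 0 0 ≠ 0 ∧ ∀ j, 1 ≤ j → j ≤ K → w 0 j = 0) (by
      rintro K w w' hww' ⟨h3, h4⟩
      refine ⟨?_, ?_⟩
      · rw [← hww' 0 (by norm_num) 0 (by omega)]; exact h3
      · intro j hj hjK
        rw [← hww' 0 (by norm_num) j hjK]; exact h4 j hj hjK) (by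
      rintro K w ⟨h3, h4⟩
      exact ⟨h3, fun j hj hjK => h4 j hj (by omega)⟩) (by
      intro K
      obtain ⟨m, hm, h1⟩ := h0 K
      have hz : ∀ i, i ≤ K → aa F (2^i*m) = 0 := by
        intro i hi
        have := h1 (K-i) (by omega)
        rw [X_one, show K - (K-i) = i by omega] at this
        exact this
      have hex := nz (F := F) h2 m
      let t := Nat.find hex
      have ht : aa F (2^t*m) ≠ 0 := Nat.find_spec hex
      have ht' : ∀ i, i < t → aa F (2^i*m) = 0 := by
        intro i hi
        by_contra hne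
        exact Nat.find_min hex hi hne
      have htK : K < t := by
        by_contra hcon
        exact ht (hz t (by omega))
      refine ⟨2^(t-K)*m, Nat.mul_pos (by positivity) hm, ?_, ?_⟩
      · simp only [st]
        rw [X_one, Nat.sub_zero, ← mul_assoc, ← pow_add, show K + (t-K) = t by omega]
        exact ht
      · intro j hj hjK
        simp only [st]
        rw [X_one, ← mul_assoc, ← pow_add, show K - j + (t-K) = t - j by omega]
        exact ht' (t-j) (by omega))
  refine ⟨w 0 0, (hQ 0).1, ?_⟩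
  refine Lim.congr (fun _ _ _ => rfl) ?_ hw
  intro i hi j
  have : i = 0 := by omega
  subst this
  rcases Nat.eq_zero_or_pos j with rfl | hj
  · simp
  · rw [if_neg (by omega)]
    exact (hQ j).2 j hj le_rfl

end Tau

section Periodic
variable {F : Type*} [Field F]

/-- no level is eventually periodic -/
def NoPer (x : ℕ → F) : Prop :=
  ∀ (P : ℕ), 1 ≤ P → ∀ (κ : ℕ), (∃ u0, ∀ u, u0 ≤ u → X x κ (u+P) = X x κ u) → False

/-- if some level is eventually periodic then some level is eventually zero -/
theorem ev_zero_of_periodic {x : ℕ → F} : ∀ (P : ℕ), 1 ≤ P → ∀ (κ : ℕ),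
    (∃ u0, ∀ u, u0 ≤ u → X x κ (u+P) = X x κ u) → ∃ κ' u0, ∀ u, u0 ≤ u → X x κ' u = 0 := by
  intro P
  induction P using Nat.strong_induction_on with
  | _ P ih =>
    intro hP κ hper
    obtain ⟨u0, hu0⟩ := hper
    rcases Nat.even_or_odd P with ⟨P', hP'⟩ | ⟨P', hP'⟩
    · -- even
      refine ih P' (by omega) (by omega) (κ+1) ⟨u0+1, ?_⟩
      intro m hm
      have e1 := X_even x κ (m+P') (by omega)
      have e2 := X_even x κ m (by omega)
      have e3 := hu0 (2*m) (by omega)
      have e4 := hu0 (2*m-1) (by omega)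
      rw [show 2*m + P = 2*(m+P') by omega] at e3
      rw [show 2*m-1 + P = 2*(m+P')-1 by omega] at e4
      rw [e3, e4, e2] at e1
      have := add_left_cancel e1
      exact this.symm
    · -- odd
      have key : ∀ m, u0 + 1 ≤ m → X x (κ+1) (m+1) = X x (κ+1) m := by
        intro m hm
        have a1 := X_succ x κ (2*m+1)
        have a2 := X_succ x κ (2*m)
        have a3 := X_succ x κ (2*m+1+P)
        have a4 := X_succ x κ (2*m+P)
        have b1 := hu0 (2*m+1) (by omega)
        have b2 := hu0 (2*m+2) (by omega)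
        have b3 := hu0 (2*m) (by omega)
        rw [show (2*m+1+1)/2 = m+1 by omega] at a1
        rw [show (2*m+1)/2 = m by omega] at a2
        rw [show 2*m+1+P+1 = 2*m+2+P by omega, b2, b1] at a3
        rw [show 2*m+P+1 = 2*m+1+P by omega, b1, b3] at a4
        rw [show (2*m+2+P)/2 = (2*m+1+P)/2 by omega] at a3
        rw [show 2*m+1+1 = 2*m+2 by omega] at a1
        have c1 : X x (κ+1) (m+1) = X x κ (2*m+2) - X x κ (2*m+1) := by rw [a1]; ring
        have c2 : X x (κ+1) m = X x κ (2*m+1) - X x κ (2*m) := by rw [a2]; ring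
        have c3 : X x (κ+1) ((2*m+1+P)/2) = X x κ (2*m+2) - X x κ (2*m+1) := by
          linear_combination (-1:F)*a3
        have c4 : X x (κ+1) ((2*m+1+P)/2) = X x κ (2*m+1) - X x κ (2*m) := by
          linear_combination (-1:F)*a4
        rw [c1, c2, ← c3, ← c4]
      refine ⟨κ+2, u0+1, ?_⟩
      intro u hu
      have h1 := X_even x (κ+1) u (by omega)
      have h2 := key (2*u-1) (by omega)
      rw [show 2*u-1+1 = 2*u by omega, h1] at h2
      have : X x (κ+1+1) u = 0 := by
        have := h2
        linear_combination this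
      exact this

theorem ev_zero_levels {x : ℕ → F} {κ u0 : ℕ} (h : ∀ u, u0 ≤ u → X x κ u = 0) :
    ∀ i, ∀ u, u0 + 1 ≤ u → X x (κ+i) u = 0 := by
  intro i
  induction i with
  | zero => intro u hu; exact h u (by omega)
  | succ i ih =>
    intro u hu
    have h1 := X_even x (κ+i) u (by omega)
    rw [ih (2*u) (by omega)] at h1
    rcases Nat.lt_or_ge (2*u-1) (u0+1) with h3 | h3
    · omega
    · rw [ih (2*u-1) h3, zero_add] at h1
      exact h1.symm

/-- a recurrent tower with an eventually zero level has finite support -/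
theorem fin_supp_of_ev_zero {x : ℕ → F} (hx : Lim1 x x) {κ u0 : ℕ}
    (h : ∀ u, u0 ≤ u → X x κ u = 0) : ∀ j, κ ≤ j → x j = 0 := by
  intro j hj
  rw [lim1_iff] at hx
  obtain ⟨m, hm, h1⟩ := hx (j + u0 + 1)
  rw [← h1 j (by omega)]
  obtain ⟨i, rfl⟩ : ∃ i, j = κ + i := ⟨j - κ, by omega⟩
  apply ev_zero_levels h i
  rw [show κ + i + u0 + 1 - (κ+i) = u0 + 1 by omega]
  have h3 : u0 + 1 < 2^(u0+1) := Nat.lt_two_pow_self
  have h4 : 2^(u0+1) ≤ 2^(u0+1)*m := Nat.le_mul_of_pos_right _ (by omega)
  omega

end Periodic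

section Special
variable {F : Type*} [Field F] [Finite F]

theorem special_exists' (v : ℕ → F) (h0 : NoPer v) :
    ∃ (s : ℕ → F) (δ : F), Lim1 v s ∧ δ ≠ 0 ∧ Lim1 v (fun j => s j + δ) := by
  classical
  by_contra hno
  -- finite determinism
  have hK : ∃ K, ∀ m m', 1 ≤ m → 1 ≤ m' → ∀ δ : F, δ ≠ 0 →
      ¬ (∀ j, j ≤ K → X v j (2^(K-j)*m') = X v j (2^(K-j)*m) + δ) := by
    by_contra hcon
    push Not at hcon
    obtain ⟨w, z, hw, hz, hQ⟩ := lim_exists₂ 1 (fun _ => v)
      (fun K w z => ∃ δ : F, δ ≠ 0 ∧ ∀ j, j ≤ K → z 0 j = w 0 j + δ) (by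
        rintro K w w' z z' hw hz ⟨δ, hδ, h1⟩
        refine ⟨δ, hδ, ?_⟩
        intro j hj
        rw [← hw 0 (by norm_num) j hj, ← hz 0 (by norm_num) j hj]
        exact h1 j hj) (by
        rintro K w z ⟨δ, hδ, h1⟩
        exact ⟨δ, hδ, fun j hj => h1 j (by omega)⟩) (by
        intro K
        obtain ⟨m, m', hm, hm', δ, hδ, h1⟩ := hcon K
        exact ⟨m, m', hm, hm', δ, hδ, fun j hj => h1 j hj⟩)
    apply hno
    refine ⟨w 0, z 0 0 - w 0 0, hw.coord 0 (by norm_num), ?_, ?_⟩
    · obtain ⟨δ, hδ, h1⟩ := hQ 0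
      rw [h1 0 le_rfl]
      simpa using hδ
    · have hz' := hz.coord 0 (by norm_num)
      have : z 0 = fun j => w 0 j + (z 0 0 - w 0 0) := by
        funext j
        obtain ⟨δ, _, h1⟩ := hQ j
        rw [h1 j le_rfl, h1 0 (Nat.zero_le _)]
        ring
      rw [← this]
      exact hz'
  obtain ⟨K, hK⟩ := hK
  let S : ℕ → (Fin (K+1) → F) := fun u x => X v x (2^(K-x.1)*(u+1))
  have hstep : ∀ u u', S u = S u' → S (u+1) = S (u'+1) := by
    intro u u' hS
    have hS' : ∀ j, j ≤ K →
        X v j (2^(K-j)*(u+1)) = X v j (2^(K-j)*(u'+1)) := by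
      intro j hj
      exact congrFun hS ⟨j, by omega⟩
    -- differences are constant
    have hconst : ∀ t j, j + t = K →
        X v j (2^(K-j)*(u'+1+1)) = X v j (2^(K-j)*(u+1+1)) +
          (X v K (u'+1+1) - X v K (u+1+1)) := by
      intro t
      induction t with
      | zero =>
        intro j hj
        have : j = K := by omega
        subst this
        simp
      | succ t ih =>
        intro j hj
        have ih' := ih (j+1) (by omega)
        obtain ⟨q, hq⟩ : ∃ q, K - j = q + 1 := ⟨K-j-1, by omega⟩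
        have hq' : K - (j+1) = q := by omega
        rw [hq'] at ih'
        rw [hq]
        have e1 : ∀ w, 2^(q+1)*w = 2*(2^q*w) := by intro w; ring
        have hpos : ∀ w, 1 ≤ w → 1 ≤ 2^q*w := by
          intro w hw; exact Nat.mul_pos (by positivity) hw
        have e2 := X_even v j (2^q*(u+1+1)) (hpos _ (by omega))
        have e3 := X_even v j (2^q*(u'+1+1)) (hpos _ (by omega))
        rw [e1, e1, e2, e3, ih']
        -- block values agree
        have hb : X v j (2*(2^q*(u+1+1))-1) = X v j (2*(2^q*(u'+1+1))-1) := by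
          have b1 := X_block v (fun i' => X v (j+i') (2^(K-j-i')*(u+1))) j (K-j) (u+1)
            (fun i' _ => rfl) (2^(K-j)-1) 0 (Nat.zero_le _) (by
              have : 0 < 2^(K-j) := by positivity
              rw [Nat.sub_zero]; omega)
          have b2 := X_block v (fun i' => X v (j+i') (2^(K-j-i')*(u+1))) j (K-j) (u'+1)
            (fun i' hi' => by
              have := hS' (j+i') (by omega)
              rw [show K - j - i' = K - (j+i') by omega]
              exact this.symm) (2^(K-j)-1) 0 (Nat.zero_le _) (by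
              have : 0 < 2^(K-j) := by positivity
              rw [Nat.sub_zero]; omega)
          rw [← b2] at b1
          simp only [Nat.sub_zero, Nat.add_zero] at b1
          rw [hq] at b1
          have p1 : ∀ w, 2^(q+1)*w + (2^(q+1)-1) = 2*(2^q*(w+1)) - 1 := by
            intro w
            have : 0 < 2^q := by positivity
            have h2 : 2^(q+1) = 2*2^q := by ring
            rw [h2]
            have h3 : 2*(2^q*(w+1)) = 2*2^q*w + 2*2^q := by ring
            omega
          rw [p1, p1] at b1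
          exact b1
        rw [hb]
        ring
    -- the difference must vanish
    have hzero : X v K (u'+1+1) - X v K (u+1+1) = 0 := by
      by_contra hne
      refine hK (u+1+1) (u'+1+1) (by omega) (by omega)
        (X v K (u'+1+1) - X v K (u+1+1)) hne ?_
      intro j hj
      exact hconst (K-j) j (by omega)
    funext x
    have := hconst (K - x.1) x.1 (by have := x.2; omega)
    rw [hzero, add_zero] at this
    exact this.symm
  obtain ⟨u, u', hne, hu⟩ := Finite.exists_ne_map_eq_of_infinite S
  have main : ∀ u u', u < u' → S u = S u' → False := by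
    intro u u' hlt hS
    have hall : ∀ t, S (u+t) = S (u'+t) := by
      intro t
      induction t with
      | zero => exact hS
      | succ t ih => exact hstep _ _ ih
    refine h0 (u'-u) (by omega) K ⟨u+1, ?_⟩
    intro w hw
    obtain ⟨t, rfl⟩ : ∃ t, w = u + t + 1 := ⟨w - u - 1, by omega⟩
    have := congrFun (hall t) ⟨K, by omega⟩
    simp only [S, Nat.sub_self, pow_zero, one_mul] at this
    rw [this]
    congr 1
    omega
  rcases lt_or_gt_of_ne hne with h | h
  · exact main u u' h hu
  · exact main u' u h hu.symm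

end Special

section FinSupp
variable {F : Type*} [Field F] [Finite F]

/-- infinite support -/
def Inf (x : ℕ → F) : Prop := ∀ M, ∃ j, M ≤ j ∧ x j ≠ 0

theorem Inf.shift {x : ℕ → F} (h : Inf x) (s : ℕ) : Inf (fun j => x (s+j)) := by
  intro M
  obtain ⟨j, hj, hx⟩ := h (s+M)
  exact ⟨j-s, by omega, by simp only; rw [show s + (j-s) = j by omega]; exact hx⟩

theorem Inf.noPer {x : ℕ → F} (h : Inf x) (hx : Lim1 x x) : NoPer x := by
  intro P hP κ hper
  obtain ⟨κ', u0, h1⟩ := ev_zero_of_periodic P hP κ hper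
  obtain ⟨j, hj, hne⟩ := h κ'
  exact hne (fin_supp_of_ev_zero hx h1 j hj)

theorem add_closed_of_inf (h2 : (2:F) ≠ 0) (hsurj : ∀ x : F, ∃ n : ℕ, (n:F) = x)
    {w : ℕ → F} (hmin : Min1 w) (hinf : Inf w) :
    ∀ y, Lim1 w y → ∀ f : F, Lim1 w (fun j => y j + if j = 0 then f else 0) := by
  obtain ⟨s, δ, hs, hδ, hsδ⟩ := special_exists' w (hinf.noPer hmin.self)
  obtain ⟨c, hc, hlim⟩ := lim_delta (F := F) h2 hsurj
  obtain ⟨P, hP, hP1⟩ := exists_op (F := F) (k := 1) (v := fun _ => fun _ => (1:F))
    (w := fun _ => fun j => if j = 0 then c else 0) hlim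
  have hP1' : P (fun _ => (1:F)) = fun j => if j = 0 then c else 0 := hP1 0 (by norm_num)
  have h3 : Lim1 s (P s) := by
    have := (hP 1 (fun _ => s)).coord 0 (by norm_num)
    exact this
  have h4 : Lim1 (fun j => s j + δ) (fun j => P s j + if j = 0 then δ * c else 0) := by
    have h5 := (lim_addlast (k := 1) (hP 2 (fun i => if i = 0 then s else fun _ => (1:F)))
      (fun _ => δ)).coord 0 (by norm_num)
    simp only [if_true, show ¬ ((1:ℕ) = 0) by norm_num, if_false, mul_one] at h5
    rw [hP1'] at h5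
    have e : (fun j => P s j + δ * if j = 0 then c else 0)
        = (fun j => P s j + if j = 0 then δ * c else 0) := by
      funext j
      split_ifs <;> simp
    rw [e] at h5
    exact h5
  refine add_closed (z := w) (x := P s) (c := δ * c) (Lim.trans hs h3) (Lim.trans hsδ h4) ?_ hsurj
    (mul_ne_zero hδ hc)
  intro y hy
  exact Lim.trans (hmin _ (Lim.trans hs h3)) hy

theorem small_elements (h2 : (2:F) ≠ 0) (hsurj : ∀ x : F, ∃ n : ℕ, (n:F) = x) :
    ∀ (n : ℕ) (w : ℕ → F), Min1 w → Inf w → ∃ y, Lim1 w y ∧ ∀ j, j < n → y j = 0 := by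
  intro n
  induction n with
  | zero =>
    intro w hmin _
    exact ⟨w, hmin.self, fun j hj => absurd hj (by omega)⟩
  | succ n ih =>
    intro w hmin hinf
    obtain ⟨y, hy, hy0⟩ := ih (fun j => w (1+j)) (hmin.shift 1) (hinf.shift 1)
    obtain ⟨y', hy', hy1⟩ := lift_shift 1 hy
    refine ⟨_, add_closed_of_inf h2 hsurj hmin hinf y' hy' (-(y' 0)), ?_⟩
    intro j hj
    rcases Nat.eq_zero_or_pos j with rfl | hj0
    · simp
    · rw [if_neg (by omega), add_zero, show j = 1 + (j-1) by omega, hy1, hy0 _ (by omega)]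

/-- **Theorem 3**: minimal towers have finite support -/
theorem fin_supp (h2 : (2:F) ≠ 0) (hsurj : ∀ x : F, ∃ n : ℕ, (n:F) = x) {w : ℕ → F}
    (hmin : Min1 w) : ∃ M, ∀ j, M ≤ j → w j = 0 := by
  by_contra hcon
  push Not at hcon
  have hinf : Inf w := hcon
  have h0 : Lim1 w (fun _ => 0) := by
    apply lim1_of_approx
    intro K
    obtain ⟨y, hy, hy0⟩ := small_elements h2 hsurj (K+1) w hmin hinf
    exact ⟨y, hy, fun j hj => hy0 j (by omega)⟩
  have h1 := hmin _ h0
  rw [lim1_iff] at h1
  obtain ⟨j, _, hne⟩ := hinf 0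
  apply hne
  obtain ⟨m, _, h3⟩ := h1 j
  rw [← h3 j le_rfl, X_zero_fun]

/-- every tower has a forward limit of finite support -/
theorem exists_fin_supp (h2 : (2:F) ≠ 0) (hsurj : ∀ x : F, ∃ n : ℕ, (n:F) = x) (r : ℕ → F) :
    ∃ w, Lim1 r w ∧ ∃ M, ∀ j, M ≤ j → w j = 0 := by
  obtain ⟨w, hw, hmin⟩ := exists_min 1 (fun _ => r)
  exact ⟨w 0, hw.coord 0 (by norm_num), fin_supp h2 hsurj (min1_of_min hmin (by norm_num))⟩

end FinSupp

end Pool.Agent.K1H49.BinPart
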