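import Mathlib
import Pool.Agent.TH76.BinPart.B2
import Pool.Agent.K1H49.BinPart.Flow

/-!
# Towers over finite additive groups, and the composite step
-/

namespace Pool.Agent.K1H49.BinPart

open Pool.Agent.TH76.BinPart Finset

set_option linter.unusedSectionVars false

section G
variable {A : Type*} [AddCommMonoid A]

/-- tower values over an additive group -/
def XG (r : ℕ → A) : ℕ → ℕ → A
  | k, 0 => r k
  | k, n+1 => XG r k n + XG r (k+1) ((n+1)/2)
termination_by _ n => n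
decreasing_by
  all_goals omega

theorem XG_zero (r : ℕ → A) (k : ℕ) : XG r k 0 = r k := by
  rw [XG]

theorem XG_succ (r : ℕ → A) (k n : ℕ) : XG r k (n+1) = XG r k n + XG r (k+1) ((n+1)/2) := by
  rw [XG]

/-- block lemma -/
theorem XG_block (r r' : ℕ → A) (k J m : ℕ)
    (h : ∀ i, i ≤ J → XG r (k+i) (2^(J-i)*m) = r' i) :
    ∀ n i, i ≤ J → n < 2^(J-i) → XG r (k+i) (2^(J-i)*m + n) = XG r' i n := by
  intro n
  induction n using Nat.strong_induction_on with
  | _ n ih =>
    intro i hi hn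
    cases n with
    | zero => rw [XG_zero, Nat.add_zero]; exact h i hi
    | succ n =>
      have hJ : 1 ≤ J - i := by
        by_contra hcon
        have : J - i = 0 := by omega
        rw [this] at hn
        simp at hn
      obtain ⟨q, hq⟩ : ∃ q, J - i = q + 1 := ⟨J-i-1, by omega⟩
      have hq' : J - (i+1) = q := by omega
      rw [hq] at hn ⊢
      have e1 : 2^(q+1)*m + (n+1) = (2^(q+1)*m + n) + 1 := by ring
      rw [e1, XG_succ, XG_succ]
      have ih1 := ih n (by omega) i hi (by rw [hq]; omega)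
      rw [hq] at ih1
      rw [ih1]
      have hpow : 2^(q+1) = 2 * 2^q := by ring
      have e2 : (2^(q+1)*m + n + 1)/2 = 2^q*m + (n+1)/2 := by
        rw [hpow, mul_assoc]; omega
      rw [e2]
      have ih2 := ih ((n+1)/2) (by omega) (i+1) (by omega) (by rw [hq']; omega)
      rw [hq'] at ih2
      rw [← ih2]
      congr 2

theorem XG_map {B : Type*} [AddCommMonoid B] (f : A →+ B) (r : ℕ → A) : ∀ (n k : ℕ),
    XG (fun j => f (r j)) k n = f (XG r k n) := by
  intro n
  induction n using Nat.strong_induction_on with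
  | _ n ih =>
    intro k
    cases n with
    | zero => simp [XG_zero]
    | succ n =>
      rw [XG_succ, XG_succ, ih n (by omega), ih ((n+1)/2) (by omega), map_add]

theorem XG_shift (r : ℕ → A) (s : ℕ) : ∀ (n k : ℕ),
    XG (fun j => r (s + j)) k n = XG r (s + k) n := by
  intro n
  induction n using Nat.strong_induction_on with
  | _ n ih =>
    intro k
    cases n with
    | zero => simp [XG_zero]
    | succ n =>
      rw [XG_succ, XG_succ, ih n (by omega), ih ((n+1)/2) (by omega)]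
      rfl

theorem XG_zero_fun (k n : ℕ) : XG (fun _ => (0:A)) k n = 0 := by
  have := XG_map (0 : A →+ A) (fun _ => (0:A)) n k
  simpa using this

theorem XG_eq_X {F : Type*} [Field F] (r : ℕ → F) : ∀ (n k : ℕ), XG r k n = X r k n := by
  intro n
  induction n using Nat.strong_induction_on with
  | _ n ih =>
    intro k
    cases n with
    | zero => rw [XG_zero, X_zero]
    | succ n => rw [XG_succ, X_succ, ih n (by omega), ih ((n+1)/2) (by omega)]

/-- forward limits over additive groups -/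
def LG (x y : ℕ → A) : Prop := ∀ K, ∃ m, 1 ≤ m ∧ ∀ j, j ≤ K → XG x j (2^(K-j)*m) = y j

theorem LG.val {v w : ℕ → A} (h : LG v w) (L K : ℕ) (hK : 2*L ≤ K) :
    ∃ m, 1 ≤ m ∧ ∀ j, j ≤ L → ∀ n, n ≤ L → XG w j n = XG v j (2^(K-j)*m + n) := by
  obtain ⟨m, hm, h1⟩ := h K
  refine ⟨m, hm, ?_⟩
  intro j hj n hn
  have hb := XG_block v (fun i' => w (j + i')) j (K-j) m (by
    intro i' hi'
    rw [show K - j - i' = K - (j+i') by omega]
    exact h1 (j+i') (by omega)) n 0 (Nat.zero_le _) (by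
      rw [Nat.sub_zero]
      calc n ≤ L := hn
        _ < 2^L := Nat.lt_two_pow_self
        _ ≤ 2^(K-j) := Nat.pow_le_pow_right (by norm_num) (by omega))
  rw [Nat.sub_zero, Nat.add_zero] at hb
  rw [hb, XG_shift, Nat.add_zero]

theorem LG.trans {v w z : ℕ → A} (h1 : LG v w) (h2 : LG w z) : LG v z := by
  intro K
  obtain ⟨m2, hm2, h2'⟩ := h2 K
  obtain ⟨m1, hm1, h1'⟩ := h1.val (K + 2^K*m2) (2*(K+2^K*m2)) le_rfl
  set K' := 2*(K+2^K*m2) with hK'
  refine ⟨2^(K'-K)*m1 + m2, by omega, ?_⟩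
  intro j hj
  have hle : 2^(K-j)*m2 ≤ K + 2^K*m2 := by
    have : 2^(K-j)*m2 ≤ 2^K*m2 := Nat.mul_le_mul_right _ (Nat.pow_le_pow_right (by norm_num) (by omega))
    omega
  have := h1' j (by omega) (2^(K-j)*m2) hle
  rw [h2' j hj] at this
  rw [this]
  congr 1
  have hKK : K ≤ K' := by omega
  have : 2^(K'-j) = 2^(K-j)*2^(K'-K) := by
    rw [← pow_add]; congr 1; omega
  rw [this]; ring

theorem LG.shift {v w : ℕ → A} (h : LG v w) (s : ℕ) :
    LG (fun j => v (s+j)) (fun j => w (s+j)) := by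
  intro K
  obtain ⟨m, hm, h1⟩ := h (s+K)
  refine ⟨m, hm, ?_⟩
  intro j hj
  have := h1 (s+j) (by omega)
  rw [show s + K - (s+j) = K - j by omega] at this
  rw [XG_shift]
  exact this

theorem LG.map {B : Type*} [AddCommMonoid B] (f : A →+ B) {v w : ℕ → A} (h : LG v w) :
    LG (fun j => f (v j)) (fun j => f (w j)) := by
  intro K
  obtain ⟨m, hm, h1⟩ := h K
  refine ⟨m, hm, ?_⟩
  intro j hj
  rw [XG_map, h1 j hj]

theorem LG_of_lim1 {F : Type*} [Field F] {x y : ℕ → F} (h : Lim1 x y) : LG x y := by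
  rw [lim1_iff] at h
  intro K
  obtain ⟨m, hm, h1⟩ := h K
  refine ⟨m, hm, ?_⟩
  intro j hj
  rw [XG_eq_X, h1 j hj]

/-- limits exist along given positions -/
theorem LG_exists [Finite A] (x : ℕ → A) (m : ℕ → ℕ) (hm : ∀ K, 1 ≤ m K) :
    ∃ w : ℕ → A, LG x w ∧ ∀ j, ∃ K, j ≤ K ∧ XG x j (2^(K-j)*m K) = w j := by
  classical
  let U : Ultrafilter ℕ := Filter.hyperfilter ℕ
  have hU : ∀ K0 : ℕ, ∀ᶠ K in (U : Filter ℕ), K0 ≤ K := fun K0 =>
    Nat.hyperfilter_le_atTop (Filter.eventually_ge_atTop K0)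
  have hlim : ∀ g : ℕ → A, ∃ c : A, ∀ᶠ K in (U : Filter ℕ), g K = c := by
    intro g
    have : ∀ᶠ K in (U : Filter ℕ), ∃ c : A, g K = c :=
      Filter.Eventually.of_forall (fun K => ⟨g K, rfl⟩)
    exact Ultrafilter.eventually_exists_iff.mp this
  choose w hw using fun (j : ℕ) => hlim (fun K => XG x j (2^(K-j) * m K))
  refine ⟨w, ?_, ?_⟩
  · intro K0
    have h2 : ∀ᶠ K in (U : Filter ℕ), ∀ j ∈ range (K0+1), XG x j (2^(K-j) * m K) = w j := by
      rw [Filter.eventually_all_finset]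
      intro j _
      exact hw j
    obtain ⟨K, h3, h4⟩ := (h2.and (hU K0)).exists
    refine ⟨2^(K-K0) * m K, Nat.mul_pos (by positivity) (hm K), ?_⟩
    intro j hj
    rw [← h3 j (Finset.mem_range.mpr (by omega))]
    rw [← mul_assoc, ← pow_add]
    congr 3
    omega
  · intro j
    obtain ⟨K, h3, h4⟩ := ((hw j).and (hU j)).exists
    exact ⟨K, h4, h3⟩

end G

section Step

/-- the constant tower over `ℤ/N` has the zero tower as a forward limit -/
def ZZ (N : ℕ) : Prop := LG (fun _ => (1 : ZMod N)) (fun _ => 0)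

theorem ZZ_one : ZZ 1 := by
  intro K
  exact ⟨1, le_rfl, fun j _ => Subsingleton.elim _ _⟩

theorem zmod_surj (p : ℕ) [NeZero p] (x : ZMod p) : ∃ n : ℕ, (n : ZMod p) = x :=
  ⟨x.val, ZMod.natCast_zmod_val x⟩

/-- multiplication by `h`, from `ℤ/p` to `ℤ/(hp)` -/
def iota (h p : ℕ) : ZMod p →+ ZMod (h*p) :=
  ZMod.lift p ⟨zmultiplesHom (ZMod (h*p)) (h : ZMod (h*p)), by
    simp only [zmultiplesHom_apply, natCast_zsmul, nsmul_eq_mul]
    rw [← Nat.cast_mul, mul_comm, ZMod.natCast_self]⟩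

theorem iota_natCast (h p n : ℕ) : iota h p (n : ZMod p) = ((h * n : ℕ) : ZMod (h*p)) := by
  have : ((n : ℕ) : ZMod p) = ((n : ℤ) : ZMod p) := by push_cast; rfl
  rw [iota, this, ZMod.lift_coe]
  simp only [zmultiplesHom_apply, natCast_zsmul, nsmul_eq_mul]
  push_cast
  ring

theorem exists_iota {h p : ℕ} [NeZero (h*p)] {x : ZMod (h*p)}
    (hx : ZMod.castHom (Nat.dvd_mul_right h p) (ZMod h) x = 0) : ∃ y : ZMod p, iota h p y = x := by
  obtain ⟨n, rfl⟩ : ∃ n : ℕ, (n : ZMod (h*p)) = x := ⟨x.val, ZMod.natCast_zmod_val x⟩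
  rw [map_natCast, ZMod.natCast_eq_zero_iff] at hx
  obtain ⟨q, rfl⟩ := hx
  exact ⟨(q : ZMod p), iota_natCast h p q⟩

theorem ZZ_step {h p : ℕ} (hp : p.Prime) (hp2 : p ≠ 2) (hh : h ≠ 0) (hz : ZZ h) :
    ZZ (h*p) := by
  haveI : Fact p.Prime := ⟨hp⟩
  haveI : NeZero (h*p) := ⟨Nat.mul_ne_zero hh hp.ne_zero⟩
  haveI : NeZero p := ⟨hp.ne_zero⟩
  have h2 : (2 : ZMod p) ≠ 0 := by
    intro h0
    have h1 : ((2:ℕ) : ZMod p) = 0 := by push_cast; exact h0
    rw [ZMod.natCast_eq_zero_iff] at h1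
    exact hp2 ((Nat.prime_dvd_prime_iff_eq hp Nat.prime_two).mp h1)
  choose m hm h1 using hz
  obtain ⟨w, hw, hw1⟩ := LG_exists (fun _ => (1 : ZMod (h*p))) m hm
  have hwz : ∀ j, ZMod.castHom (Nat.dvd_mul_right h p) (ZMod h) (w j) = 0 := by
    intro j
    obtain ⟨K, hK, h3⟩ := hw1 j
    rw [← h3]
    have h4 := XG_map (ZMod.castHom (Nat.dvd_mul_right h p) (ZMod h)).toAddMonoidHom
      (fun _ => (1 : ZMod (h*p))) (2^(K-j)*m K) j
    have h5 := h1 K j hK
    have e : (fun _ : ℕ => (ZMod.castHom (Nat.dvd_mul_right h p) (ZMod h)).toAddMonoidHom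
        (1 : ZMod (h*p))) = fun _ => (1 : ZMod h) := by
      funext j
      exact map_one (ZMod.castHom (Nat.dvd_mul_right h p) (ZMod h))
    rw [e, h5] at h4
    exact h4.symm
  choose w' hw' using fun j => exists_iota (hwz j)
  obtain ⟨t, ht, M, hM⟩ := exists_fin_supp (F := ZMod p) h2 (zmod_surj p) w'
  have h6 : LG (fun j => iota h p (w' j)) (fun j => iota h p (t j)) :=
    (LG_of_lim1 ht).map (iota h p)
  rw [show (fun j => iota h p (w' j)) = w from funext hw'] at h6
  have h7 := (hw.trans h6).shift M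
  have e : (fun j => iota h p (t (M + j))) = fun _ => (0 : ZMod (h*p)) := by
    funext j
    rw [hM (M+j) (by omega), map_zero]
  rw [e] at h7
  exact h7

theorem ZZ_odd : ∀ h : ℕ, h % 2 = 1 → ZZ h := by
  intro h
  induction h using Nat.strong_induction_on with
  | _ h ih =>
    intro hh
    rcases Nat.lt_or_ge 1 h with h1 | h1
    · have hne : h ≠ 1 := by omega
      have hp := Nat.minFac_prime hne
      obtain ⟨q, hq⟩ := Nat.minFac_dvd h
      set p := h.minFac with hpdef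
      have hq1 : q % 2 = 1 := by
        rcases Nat.even_or_odd q with ⟨c, hc⟩ | ⟨c, hc⟩
        · exfalso
          have : h = 2 * (p * c) := by rw [hq, hc]; ring
          omega
        · omega
      have hp2 : p ≠ 2 := by
        intro h2
        rw [h2] at hq
        omega
      have hqlt : q < h := by
        have h2 : 2 ≤ p := hp.two_le
        have h3 : 1 ≤ q := by omega
        have h4 : 2 * q ≤ p * q := Nat.mul_le_mul_right _ h2
        omega
      have := ZZ_step hp hp2 (by omega) (ih q hqlt hq1)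
      rw [mul_comm, ← hq] at this
      exact this
    · have : h = 1 := by omega
      subst this
      exact ZZ_one

end Step

section Main

theorem an_cast_zmod (N : ℕ) : ∀ n k, XG (fun _ => (1 : ZMod N)) k n = ((an n : ℕ) : ZMod N) := by
  intro n
  induction n using Nat.strong_induction_on with
  | _ n ih =>
    intro k
    cases n with
    | zero => rw [XG_zero, an_zero]; norm_num
    | succ n =>
      rw [XG_succ, an_succ, Nat.cast_add, ih n (by omega), ih ((n+1)/2) (by omega)]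

/-- for odd `h` there are infinitely many `n ≡ 2 mod 4` with `h ∣ a(n)` -/
theorem odd_dvd (h : ℕ) (hh : h % 2 = 1) (B : ℕ) : ∃ n, B < n ∧ n % 4 = 2 ∧ h ∣ an n := by
  obtain ⟨m, hm, h1⟩ := ZZ_odd h hh (B+2)
  refine ⟨2^(B+2)*m + 2, ?_, ?_, ?_⟩
  · have h2 : B + 2 < 2^(B+2) := Nat.lt_two_pow_self
    have h3 : 2^(B+2) ≤ 2^(B+2)*m := Nat.le_mul_of_pos_right _ (by omega)
    omega
  · have : 2^(B+2)*m = 4*(2^B*m) := by rw [pow_add]; ring
    omega
  · have h2 := XG_block (fun _ => (1 : ZMod h)) (fun _ => 0) 0 (B+2) m (by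
      intro i hi
      rw [Nat.zero_add]
      exact h1 i hi) 2 0 (Nat.zero_le _) (by
        rw [Nat.sub_zero, pow_add]
        have : 0 < 2^B := by positivity
        omega)
    rw [XG_zero_fun, an_cast_zmod, Nat.sub_zero, ZMod.natCast_eq_zero_iff] at h2
    exact h2

theorem main_dvd (h : ℕ) (hh : ¬ 8 ∣ h) (B : ℕ) : ∃ n, B < n ∧ h ∣ b2 n := by
  -- write `h = 2^a h'`
  have h0 : h ≠ 0 := by rintro rfl; exact hh (dvd_zero 8)
  obtain ⟨a, h', hodd, rfl⟩ := Nat.exists_eq_two_pow_mul_odd h0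
  have ha : a ≤ 2 := by
    by_contra hcon
    apply hh
    obtain ⟨b, rfl⟩ : ∃ b, a = 3 + b := ⟨a-3, by omega⟩
    rw [pow_add]
    exact ⟨2^b*h', by ring⟩
  obtain ⟨n, hn, hn4, hdvd⟩ := odd_dvd h' (Nat.odd_iff.mp hodd) B
  refine ⟨2*n, by omega, ?_⟩
  have h4 : 4 ∣ an n := four_dvd n hn4
  have hcop : Nat.Coprime (2^a) h' := by
    apply Nat.Coprime.pow_left
    exact (Nat.coprime_two_left).mpr hodd
  have h2a : 2^a ∣ an n := by
    refine dvd_trans ?_ h4
    have : 2^a ∣ 2^2 := pow_dvd_pow 2 ha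
    simpa using this
  exact hcop.mul_dvd_of_dvd_of_dvd h2a hdvd

end Main

end Pool.Agent.K1H49.BinPart
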